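import Pool.Agent.Lib.MP_755cca_al.F.Final
import Pool.Agent.Lib.MP_755cca_al.F.Cores
import Pool.Agent.Lib.MP_755cca_al.Cnt.ZsTop

/-! The unitriangular length of all simply connected Chevalley groups over the integers. -/

namespace Pool.Agent.Results.MP_755cca_al.AllTypes

open Pool.Agent.Lib.MP_755cca_al

/-- `L(B_l) = L`, on the spin module -/
def LenB (l L : ℕ) : Prop := GenB (cre l) (ann l) L

/-- `L(D_l) = L`, on the spin module -/
def LenD (l L : ℕ) : Prop := GenD (cre l) (ann l) L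

/-- length of the group generated by all root elements, type G -/
def GenG {R : Type} [Ring R] (e f : Fin 3 → R) (L : ℕ) : Prop :=
  GenLen (rootsG 1 e f) (rootsG (-1) f e) L

/-- `L(G₂) = L`, on the spin module of `B₃` -/
def LenG (L : ℕ) : Prop := GenG (cre 3) (ann 3) L

theorem result :
    (∀ l, 2 ≤ l → LenA l (if l = 2 then 4 else if l ≤ 4 then 3 else 2)) ∧
    (∀ l, 3 ≤ l → LenB l 2) ∧
    (∀ l, 2 ≤ l → LenC l (if l = 2 then 3 else 2)) ∧
    (∀ l, 4 ≤ l → LenD l 2) ∧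
    (∀ n, 6 ≤ n → n ≤ 8 → GenLen (rootsE n 1) (rootsE n (-1)) 2) ∧
    GenLen (rootsF 1) (rootsF (-1)) 2 ∧
    LenG 2 :=
  F.finalSt_of Cnt.Zs.good0 F.baseSt

end Pool.Agent.Results.MP_755cca_al.AllTypes
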